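import Pool.Agent.helper17.EXC.Spec

/-!
# Project EXC, row PCL: classification of pairs of extremal vectors
-/

set_option autoImplicit false

open Finset

namespace Pool.Agent.EXC

theorem PCL_ip_nonneg {n : ℕ} (C : Matrix (Fin n) (Fin n) ℤ) [IsC C] (j0 : Fin n) (θ : Fin n → ℤ) (δ : Fin 5 → Fin n)
    (hE : IsE C j0 θ δ) (γ : Fin n → ℤ) (hγ : Pos γ) : 0 ≤ ip C γ θ := by
  rw [ip_eq_sum]
  refine Finset.sum_nonneg fun i _ => ?_
  rw [ip_comm C (sr i) θ, hE.thd i]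
  have := hγ i
  split_ifs <;> simp [this]

theorem PCL_fix {n : ℕ} (C : Matrix (Fin n) (Fin n) ℤ) [IsC C] (F : Type) [Field F] (hACT : ACT_stmt) (j0 : Fin n)
    (θ : Fin n → ℤ) (δ : Fin 5 → Fin n) (hE : IsE C j0 θ δ) (u : Lm C F ≃ₗ[F] Lm C F) (hu : u ∈ UG C F) :
    u (E C θ) = E C θ := by
  unfold UG at hu
  induction hu using Subgroup.closure_induction with
  | mem g hg =>
    obtain ⟨γ, h1, h2, t, h3⟩ := hg
    rw [h3]
    exact (hACT n C F γ t h1).1 θ hE.th2 (PCL_ip_nonneg C j0 θ δ hE γ h2)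
  | one => rfl
  | mul g h _ _ hg hh =>
    rw [LinearEquiv.mul_apply, hh, hg]
  | inv g _ hg =>
    have : g⁻¹ (g (E C θ)) = g⁻¹ (E C θ) := by rw [hg]
    rw [← this, ← LinearEquiv.mul_apply, inv_mul_cancel]
    rfl

theorem PCL_UG_le {n : ℕ} (C : Matrix (Fin n) (Fin n) ℤ) [IsC C] (F : Type) [Field F] : UG C F ≤ GE C F := by
  unfold UG GE
  refine Subgroup.closure_mono ?_
  rintro g ⟨γ, h1, _, t, h3⟩
  exact ⟨γ, h1, t, h3⟩

/-- every extremal vector is a nonzero multiple of `G (E θ)` -/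
theorem PCL_std {n : ℕ} (C : Matrix (Fin n) (Fin n) ℤ) [IsC C] (F : Type) [Field F] (hNBR : NBR_stmt) (hWPG : WPG_stmt)
    (j0 : Fin n) (θ : Fin n → ℤ) (δ : Fin 5 → Fin n) (hE : IsE C j0 θ δ) (a : Lm C F) (ha : Ex C a) :
    ∃ G ∈ GE C F, ∃ c : F, c ≠ 0 ∧ a = c • G (E C θ) := by
  obtain ⟨g, hg, α, hα, c, hc, rfl⟩ := ha
  obtain ⟨hb, hn⟩ := hNBR n C j0 θ δ hE
  obtain ⟨β', hβ', hW⟩ := hn α θ α hα hE.th2 hα
  obtain ⟨g1, hg1, s, s', hs, _, h1, _⟩ := hWPG n C F hb α α θ β' hα hα hW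
  refine ⟨g * g1⁻¹, mul_mem hg (inv_mem hg1), c * (s : F), ?_, ?_⟩
  · refine mul_ne_zero hc ?_
    rcases hs with rfl | rfl <;> simp
  · have h2 : (E C α : Lm C F) = (s : F) • g1⁻¹ (E C θ) := by
      rw [← map_smul, ← h1, ← LinearEquiv.mul_apply, inv_mul_cancel]
      rfl
    rw [LinearEquiv.mul_apply, mul_smul, ← map_smul g (s : F), ← h2]

theorem PCL (hEXF : EXF_stmt) (hACT : ACT_stmt) (hYST : YST_stmt) (hNBR : NBR_stmt) (hWPG : WPG_stmt) : PCL_stmt := by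
  intro n C _ F _ j0 θ δ hE a b ha hb
  obtain ⟨G, hG, c1, hc1, rfl⟩ := PCL_std C F hNBR hWPG j0 θ δ hE a ha
  obtain ⟨G', hG', c2, hc2, rfl⟩ := PCL_std C F hNBR hWPG j0 θ δ hE b hb
  obtain ⟨hbr, _⟩ := hNBR n C j0 θ δ hE
  obtain ⟨u, hu, β', hβ', c, hc, h⟩ := hYST n C F hbr (G⁻¹ * G') (mul_mem (inv_mem hG) hG') θ hE.th2
  have hf := PCL_fix C F hACT j0 θ δ hE u⁻¹ (inv_mem hu)
  have hab := ip_abs_le hE.th2 hβ'
  refine ⟨ip C θ β', hab.1, hab.2, u⁻¹ * G⁻¹, mul_mem (PCL_UG_le C F (inv_mem hu)) (inv_mem hG), β', hβ', rfl, c1, c2 * c, hc1,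
    mul_ne_zero hc2 hc, ?_, ?_⟩
  · have h1 : G⁻¹ (G (E C θ)) = E C θ := by
      rw [← LinearEquiv.mul_apply, inv_mul_cancel]
      rfl
    rw [map_smul, LinearEquiv.mul_apply, h1, hf]
  · have h1 : u⁻¹ (u (E C β')) = (E C β' : Lm C F) := by
      rw [← LinearEquiv.mul_apply, inv_mul_cancel]
      rfl
    rw [map_smul, LinearEquiv.mul_apply, ← LinearEquiv.mul_apply G⁻¹ G', h, map_smul, h1, smul_smul]

end Pool.Agent.EXC
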